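import Mathlib

/-!
# The regularity axiom for contact algebras has no first-order form

There are elementarily equivalent contact algebras such that one of them (a countable one)
satisfies (Reg) and the other one has no co-ends at all and fails (Reg).  Hence (Reg) is not
axiomatized by any set of first-order sentences.
-/

namespace Pool.Agent.Results.MP_50aa38_lc.RegNotAxiomatizable

open FirstOrder FirstOrder.Language TopologicalSpace

/-! ### Definitions -/

/-- `C` is a contact relation on the Boolean algebra `B` -/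
structure IsContact {B : Type} [BooleanAlgebra B] (C : B → B → Prop) : Prop where
  ne_bot : ∀ a b, C a b → a ≠ ⊥ ∧ b ≠ ⊥
  sup_iff : ∀ a b c, C a (b ⊔ c) ↔ C a b ∨ C a c
  symm : ∀ a b, C a b → C b a
  overlap : ∀ a b, a ⊓ b ≠ ⊥ → C a b

section Defs

variable {B : Type} [BooleanAlgebra B] (C : B → B → Prop)

/-- clans -/
structure IsClan (Γ : Set B) : Prop where
  nonempty : Γ.Nonempty
  bot_notMem : ⊥ ∉ Γ
  upward : ∀ a b, a ∈ Γ → a ≤ b → b ∈ Γ
  prime : ∀ a b, a ⊔ b ∈ Γ → a ∈ Γ ∨ b ∈ Γ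
  contact : ∀ a ∈ Γ, ∀ b ∈ Γ, C a b

/-- clusters -/
def IsCluster (Γ : Set B) : Prop := IsClan C Γ ∧ ∀ a, (∀ b ∈ Γ, C a b) → a ∈ Γ

/-- `a ≪ b`: `a` is not in contact with the complement of `b` -/
def WellInside (a b : B) : Prop := ¬ C a bᶜ

/-- co-ends -/
def IsCoEnd (Γ : Set B) : Prop := IsCluster C Γ ∧ ∀ a, a ∉ Γ → ∃ b, b ∉ Γ ∧ WellInside C a b

/-- the regularity axiom -/
def Reg : Prop := ∀ a b, C a b → ∃ Γ, IsCoEnd C Γ ∧ a ∈ Γ ∧ b ∈ Γ

end Defs

/-- the operation symbols of the language of contact algebras -/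
inductive CAFun : ℕ → Type
  | sup : CAFun 2
  | inf : CAFun 2
  | compl : CAFun 1
  | bot : CAFun 0
  | top : CAFun 0

/-- the relation symbol of the language of contact algebras -/
inductive CARel : ℕ → Type
  | C : CARel 2

/-- the first-order language of contact algebras -/
def LCA : FirstOrder.Language.{0, 0} := ⟨CAFun, CARel⟩

/-- a Boolean algebra with a binary relation as a structure -/
@[reducible] def caStr {B : Type} [BooleanAlgebra B] (C : B → B → Prop) : LCA.Structure B where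
  funMap := fun {_} f x =>
    match f, x with
    | CAFun.sup, x => x 0 ⊔ x 1
    | CAFun.inf, x => x 0 ⊓ x 1
    | CAFun.compl, x => (x 0)ᶜ
    | CAFun.bot, _ => ⊥
    | CAFun.top, _ => ⊤
  RelMap := fun {_} r x =>
    match r, x with
    | CARel.C, x => C (x 0) (x 1)

/-- the sentence `φ` holds in the contact algebra `(B, C)` -/
def Holds {B : Type} [BooleanAlgebra B] (C : B → B → Prop) (φ : LCA.Sentence) : Prop :=
  @Sentence.Realize LCA B (caStr C) φ

/-! ### The construction -/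

section Con

variable {A R : Type} [BooleanAlgebra A] [BooleanAlgebra R] (σ : BoundedLatticeHom A R)

/-- the contact relation on `A × R` -/
def con (x y : A × R) : Prop :=
  x.1 ⊓ y.1 ≠ ⊥ ∨ x.2 ⊓ y.2 ≠ ⊥ ∨ σ x.1 ⊓ y.2 ≠ ⊥ ∨ σ y.1 ⊓ x.2 ≠ ⊥

theorem isContact_con : IsContact (con σ) where
  ne_bot := by
    intro x y h
    constructor
    · rintro rfl
      unfold con at h
      simp at h
    · rintro rfl
      unfold con at h
      simp at h
  sup_iff := by
    intro x y z
    unfold con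
    simp only [Prod.fst_sup, Prod.snd_sup, map_sup, inf_sup_left, inf_sup_right, ne_eq,
      sup_eq_bot_iff]
    tauto
  symm := by
    intro x y h
    unfold con at h ⊢
    rw [inf_comm y.1 x.1, inf_comm y.2 x.2]
    tauto
  overlap := by
    intro x y h
    unfold con
    by_contra hcon
    push Not at hcon
    exact h (Prod.ext hcon.1 hcon.2.1)

variable {σ}

theorem le_of_map_le (hinj : ∀ a, σ a = ⊥ → a = ⊥) {a b : A} (h : σ a ≤ σ b) : a ≤ b := by
  rw [← sdiff_eq_bot_iff]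
  apply hinj
  rw [map_sdiff', sdiff_eq_bot_iff]
  exact h

/-- the countable case: (Reg) holds -/
theorem reg_of_countable [Countable R] (hinj : ∀ a, σ a = ⊥ → a = ⊥)
    (hdense : ∀ r : R, r ≠ ⊥ → ∃ a : A, a ≠ ⊥ ∧ σ a ≤ r) : Reg (con σ) := by
  classical
  have : Encodable R := Encodable.ofCountable R
  -- generic ultrafilters
  have hgen : ∀ w : A, w ≠ ⊥ → ∃ J : Set A, w ∈ J ∧ (∀ a ∈ J, a ≠ ⊥) ∧
      (∀ a ∈ J, ∀ b ∈ J, ∃ c ∈ J, c ≤ a ∧ c ≤ b) ∧ ∀ v : R, ∃ a ∈ J, σ a ≤ v ∨ σ a ≤ vᶜ := by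
    intro w hw
    let P := ({a : A // a ≠ ⊥})ᵒᵈ
    have hcof : ∀ v : R, IsCofinal {a : P | σ (OrderDual.ofDual a).1 ≤ v ∨
        σ (OrderDual.ofDual a).1 ≤ vᶜ} := by
      intro v a
      have ha : σ (OrderDual.ofDual a).1 ≠ ⊥ := fun h => (OrderDual.ofDual a).2 (hinj _ h)
      by_cases h : σ (OrderDual.ofDual a).1 ⊓ v = ⊥
      · refine ⟨a, Or.inr ?_, le_refl a⟩
        exact le_compl_iff_disjoint_right.mpr (disjoint_iff.mpr h)
      · obtain ⟨b, hb, hb2⟩ := hdense _ h
        refine ⟨OrderDual.toDual ⟨b, hb⟩, Or.inl (hb2.trans inf_le_right), ?_⟩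
        exact le_of_map_le hinj (hb2.trans inf_le_left)
    let D : R → Order.Cofinal P := fun v => ⟨_, hcof v⟩
    let J0 := Order.idealOfCofinals (OrderDual.toDual ⟨w, hw⟩ : P) D
    refine ⟨{a | ∃ h : a ≠ ⊥, (OrderDual.toDual ⟨a, h⟩ : P) ∈ J0},
      ⟨hw, Order.mem_idealOfCofinals _ _⟩, fun a ha => ha.1, ?_, ?_⟩
    · rintro a ⟨ha, haJ⟩ b ⟨hb, hbJ⟩
      obtain ⟨c, hc, hca, hcb⟩ := J0.directed _ haJ _ hbJ
      exact ⟨(OrderDual.ofDual c).1, ⟨(OrderDual.ofDual c).2, hc⟩, hca, hcb⟩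
    · intro v
      obtain ⟨a, ha1, ha2⟩ := Order.cofinal_meets_idealOfCofinals
        (OrderDual.toDual ⟨w, hw⟩ : P) D v
      exact ⟨(OrderDual.ofDual a).1, ⟨(OrderDual.ofDual a).2, ha2⟩, ha1⟩
  -- the co-end given by a generic ultrafilter
  have hco : ∀ J : Set A, J.Nonempty → (∀ a ∈ J, a ≠ ⊥) →
      (∀ a ∈ J, ∀ b ∈ J, ∃ c ∈ J, c ≤ a ∧ c ≤ b) → (∀ v : R, ∃ a ∈ J, σ a ≤ v ∨ σ a ≤ vᶜ) →
      IsCoEnd (con σ) {x : A × R | (∃ a ∈ J, a ≤ x.1) ∨ ∃ a ∈ J, σ a ≤ x.2} := by
    intro J hJ hne hdir hdec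
    have hdecA : ∀ u : A, ∃ a ∈ J, a ≤ u ∨ a ≤ uᶜ := by
      intro u
      obtain ⟨a, ha, h | h⟩ := hdec (σ u)
      · exact ⟨a, ha, Or.inl (le_of_map_le hinj h)⟩
      · rw [← map_compl'] at h
        exact ⟨a, ha, Or.inr (le_of_map_le hinj h)⟩
    -- an element outside is separated by an element of `J`
    have hsep : ∀ x : A × R, ¬ ((∃ a ∈ J, a ≤ x.1) ∨ ∃ a ∈ J, σ a ≤ x.2) →
        ∃ a ∈ J, a ≤ x.1ᶜ ∧ σ a ≤ x.2ᶜ := by
      intro x hx
      push Not at hx
      obtain ⟨a, ha, h⟩ := hdecA x.1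
      obtain ⟨b, hb, h'⟩ := hdec x.2
      obtain ⟨c, hc, hca, hcb⟩ := hdir a ha b hb
      refine ⟨c, hc, hca.trans (h.resolve_left (hx.1 a ha)), ?_⟩
      exact ((OrderHomClass.mono σ) hcb).trans (h'.resolve_left (hx.2 b hb))
    have hnc : ∀ (x : A × R) (a : A), a ≤ x.1ᶜ → σ a ≤ x.2ᶜ → ¬ con σ x (a, σ a) := by
      intro x a h1 h2 h
      have e1 : x.1 ⊓ a = ⊥ := by
        rw [inf_comm]
        exact (le_compl_iff_disjoint_right.mp h1).eq_bot
      have e2 : x.2 ⊓ σ a = ⊥ := by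
        rw [inf_comm]
        exact (le_compl_iff_disjoint_right.mp h2).eq_bot
      unfold con at h
      simp only at h
      rcases h with h | h | h | h
      · exact h e1
      · exact h e2
      · rw [← map_inf, e1, map_bot] at h
        exact h rfl
      · rw [inf_comm] at h
        exact h e2
    have hnm : ∀ a ∈ J, ((aᶜ, (σ a)ᶜ) : A × R) ∉
        {x : A × R | (∃ a ∈ J, a ≤ x.1) ∨ ∃ a ∈ J, σ a ≤ x.2} := by
      rintro a ha (⟨b, hb, h⟩ | ⟨b, hb, h⟩)
      · obtain ⟨c, hc, hca, hcb⟩ := hdir a ha b hb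
        exact hne c hc ((le_compl_iff_disjoint_right.mp (hcb.trans h)).eq_bot_of_le hca)
      · obtain ⟨c, hc, hca, hcb⟩ := hdir a ha b hb
        refine hne c hc (hinj c ?_)
        exact (le_compl_iff_disjoint_right.mp
          (((OrderHomClass.mono σ) hcb).trans h)).eq_bot_of_le ((OrderHomClass.mono σ) hca)
    refine ⟨⟨⟨?_, ?_, ?_, ?_, ?_⟩, ?_⟩, ?_⟩
    · obtain ⟨a, ha⟩ := hJ
      exact ⟨(a, ⊥), Or.inl ⟨a, ha, le_rfl⟩⟩
    · rintro (⟨a, ha, h⟩ | ⟨a, ha, h⟩)
      · exact hne a ha (le_bot_iff.mp h)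
      · exact hne a ha (hinj a (le_bot_iff.mp h))
    · rintro x y (⟨a, ha, h⟩ | ⟨a, ha, h⟩) hxy
      · exact Or.inl ⟨a, ha, h.trans hxy.1⟩
      · exact Or.inr ⟨a, ha, h.trans hxy.2⟩
    · intro x y hxy
      by_contra hcon
      rw [not_or] at hcon
      obtain ⟨a, ha, h1, h2⟩ := hsep x hcon.1
      obtain ⟨b, hb, h3, h4⟩ := hsep y hcon.2
      obtain ⟨c, hc, hca, hcb⟩ := hdir a ha b hb
      have h5 : c ≤ (x ⊔ y).1ᶜ := by
        rw [Prod.fst_sup, compl_sup]
        exact le_inf (hca.trans h1) (hcb.trans h3)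
      have h6 : σ c ≤ (x ⊔ y).2ᶜ := by
        rw [Prod.snd_sup, compl_sup]
        exact le_inf (((OrderHomClass.mono σ) hca).trans h2)
          (((OrderHomClass.mono σ) hcb).trans h4)
      have h7 : x ⊔ y ≤ ((cᶜ, (σ c)ᶜ) : A × R) :=
        ⟨le_compl_comm.mp h5, le_compl_comm.mp h6⟩
      refine hnm c hc ?_
      rcases hxy with ⟨d, hd, h⟩ | ⟨d, hd, h⟩
      · exact Or.inl ⟨d, hd, h.trans h7.1⟩
      · exact Or.inr ⟨d, hd, h.trans h7.2⟩
    · rintro x hx y hy
      unfold con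
      rcases hx with ⟨a, ha, h⟩ | ⟨a, ha, h⟩
      · rcases hy with ⟨b, hb, h'⟩ | ⟨b, hb, h'⟩
        · obtain ⟨c, hc, hca, hcb⟩ := hdir a ha b hb
          exact Or.inl fun h0 => hne c hc
            (le_bot_iff.mp (h0 ▸ le_inf (hca.trans h) (hcb.trans h')))
        · obtain ⟨c, hc, hca, hcb⟩ := hdir a ha b hb
          refine Or.inr (Or.inr (Or.inl fun h0 => hne c hc (hinj c (le_bot_iff.mp (h0 ▸ ?_)))))
          exact le_inf ((OrderHomClass.mono σ) (hca.trans h))
            (((OrderHomClass.mono σ) hcb).trans h')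
      · rcases hy with ⟨b, hb, h'⟩ | ⟨b, hb, h'⟩
        · obtain ⟨c, hc, hca, hcb⟩ := hdir a ha b hb
          refine Or.inr (Or.inr (Or.inr fun h0 => hne c hc (hinj c (le_bot_iff.mp (h0 ▸ ?_)))))
          exact le_inf ((OrderHomClass.mono σ) (hcb.trans h'))
            (((OrderHomClass.mono σ) hca).trans h)
        · obtain ⟨c, hc, hca, hcb⟩ := hdir a ha b hb
          refine Or.inr (Or.inl fun h0 => hne c hc (hinj c (le_bot_iff.mp (h0 ▸ ?_))))
          exact le_inf (((OrderHomClass.mono σ) hca).trans h)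
            (((OrderHomClass.mono σ) hcb).trans h')
    · intro x hx
      by_contra hcon
      obtain ⟨a, ha, h1, h2⟩ := hsep x hcon
      exact hnc x a h1 h2 (hx (a, σ a) (Or.inl ⟨a, ha, le_rfl⟩))
    · intro x hx
      obtain ⟨a, ha, h1, h2⟩ := hsep x hx
      refine ⟨(aᶜ, (σ a)ᶜ), hnm a ha, ?_⟩
      unfold WellInside
      have : ((aᶜ, (σ a)ᶜ) : A × R)ᶜ = (a, σ a) := Prod.ext (compl_compl a) (compl_compl (σ a))
      rw [this]
      exact hnc x a h1 h2
  -- conclusion
  intro x y hxy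
  have hw : ∃ w : A, w ≠ ⊥ ∧ ((w ≤ x.1 ∨ σ w ≤ x.2) ∧ (w ≤ y.1 ∨ σ w ≤ y.2)) := by
    rcases hxy with h | h | h | h
    · exact ⟨x.1 ⊓ y.1, h, Or.inl inf_le_left, Or.inl inf_le_right⟩
    · obtain ⟨w, hw, h2⟩ := hdense _ h
      exact ⟨w, hw, Or.inr (h2.trans inf_le_left), Or.inr (h2.trans inf_le_right)⟩
    · obtain ⟨w, hw, h2⟩ := hdense _ h
      exact ⟨w, hw, Or.inl (le_of_map_le hinj (h2.trans inf_le_left)),
        Or.inr (h2.trans inf_le_right)⟩
    · obtain ⟨w, hw, h2⟩ := hdense _ h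
      exact ⟨w, hw, Or.inr (h2.trans inf_le_right),
        Or.inl (le_of_map_le hinj (h2.trans inf_le_left))⟩
  obtain ⟨w, hw, h1, h2⟩ := hw
  obtain ⟨J, hwJ, hne, hdir, hdec⟩ := hgen w hw
  refine ⟨_, hco J ⟨w, hwJ⟩ hne hdir hdec, ?_, ?_⟩
  · rcases h1 with h1 | h1
    · exact Or.inl ⟨w, hwJ, h1⟩
    · exact Or.inr ⟨w, hwJ, h1⟩
  · rcases h2 with h2 | h2
    · exact Or.inl ⟨w, hwJ, h2⟩
    · exact Or.inr ⟨w, hwJ, h2⟩

/-- ultrafilters of `A` -/
structure IsUltra (p : Set A) : Prop where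
  mem_or : ∀ u, u ∈ p ∨ uᶜ ∈ p
  not_both : ∀ u, ¬ (u ∈ p ∧ uᶜ ∈ p)
  up : ∀ u u', u ∈ p → u ≤ u' → u' ∈ p
  prime : ∀ u u', u ⊔ u' ∈ p → u ∈ p ∨ u' ∈ p

theorem IsUltra.inf {p : Set A} (hp : IsUltra p) {u v : A} (hu : u ∈ p) (hv : v ∈ p) :
    u ⊓ v ∈ p := by
  by_contra h
  have h1 := (hp.mem_or (u ⊓ v)).resolve_left h
  rw [compl_inf] at h1
  rcases hp.prime _ _ h1 with h2 | h2
  · exact hp.not_both u ⟨hu, h2⟩
  · exact hp.not_both v ⟨hv, h2⟩

theorem IsUltra.bot_notMem {p : Set A} (hp : IsUltra p) : ⊥ ∉ p := fun h =>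
  hp.not_both ⊥ ⟨h, hp.up _ _ h bot_le⟩

theorem IsUltra.top_mem {p : Set A} (hp : IsUltra p) : ⊤ ∈ p := by
  rcases hp.mem_or ⊤ with h | h
  · exact h
  · exact hp.up _ _ h le_top

/-- if every ultrafilter of `A` can be split in `R`, there is no co-end -/
theorem no_coEnd (H : ∀ p : Set A, IsUltra p →
      ∃ v : R, (∀ a, v ≤ σ a → a ∈ p) ∧ ∀ a, vᶜ ≤ σ a → a ∈ p) (Γ : Set (A × R)) :
    ¬ IsCoEnd (con σ) Γ := by
  rintro ⟨⟨hclan, hclus⟩, hco⟩
  have hσc : ∀ u : A, σ u ⊓ σ uᶜ = ⊥ := by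
    intro u
    rw [← map_inf, inf_compl_self, map_bot]
  have htop : ((⊤, ⊤) : A × R) ∈ Γ := by
    obtain ⟨x, hx⟩ := hclan.nonempty
    exact hclan.upward x _ hx ⟨le_top, le_top⟩
  have hp : IsUltra {u : A | ((u, σ u) : A × R) ∈ Γ} := by
    refine ⟨?_, ?_, ?_, ?_⟩
    · intro u
      apply hclan.prime (u, σ u) (uᶜ, σ uᶜ)
      have : ((u, σ u) : A × R) ⊔ (uᶜ, σ uᶜ) = (⊤, ⊤) := by
        refine Prod.ext ?_ ?_
        · exact sup_compl_eq_top
        · change σ u ⊔ σ uᶜ = ⊤
          rw [← map_sup, sup_compl_eq_top, map_top]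
      rw [this]
      exact htop
    · rintro u ⟨h1, h2⟩
      have h3 := hclan.contact _ h1 _ h2
      unfold con at h3
      simp only [inf_compl_self, hσc] at h3
      rcases h3 with h3 | h3 | h3 | h3
      · exact h3 rfl
      · exact h3 rfl
      · exact h3 rfl
      · rw [inf_comm, hσc] at h3
        exact h3 rfl
    · intro u u' h1 h2
      exact hclan.upward _ _ h1 ⟨h2, (OrderHomClass.mono σ) h2⟩
    · intro u u' h1
      apply hclan.prime (u, σ u) (u', σ u')
      have : ((u, σ u) : A × R) ⊔ (u', σ u') = (u ⊔ u', σ (u ⊔ u')) := by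
        rw [map_sup]
        rfl
      rw [this]
      exact h1
  obtain ⟨v, hv1, hv2⟩ := H _ hp
  -- one of `v`, `vᶜ` is not in `Γ`
  obtain ⟨r, hr1, hr2⟩ : ∃ r : R, ((⊥, r) : A × R) ∉ Γ ∧
      ∀ a, r ≤ σ a → a ∈ {u : A | ((u, σ u) : A × R) ∈ Γ} := by
    by_cases h : ((⊥, v) : A × R) ∈ Γ
    · refine ⟨vᶜ, fun h2 => ?_, hv2⟩
      have h3 := hclan.contact _ h _ h2
      unfold con at h3
      simp at h3
    · exact ⟨v, h, hv1⟩
  obtain ⟨⟨u1, v1⟩, hb, hwell⟩ := hco _ hr1
  have hr3 : r ≤ σ u1 := by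
    by_contra hcon
    apply hwell
    refine Or.inr (Or.inr (Or.inr ?_))
    change σ u1ᶜ ⊓ r ≠ ⊥
    intro h
    apply hcon
    rw [map_compl'] at h
    rw [← compl_compl (σ u1)]
    exact le_compl_iff_disjoint_left.mpr (disjoint_iff.mpr h)
  have hu1 := hr2 u1 hr3
  have hnt : ((⊤, ⊥) : A × R) ∉ Γ := by
    intro h
    have h1 : ((⊤, ⊥) : A × R) = (u1, ⊥) ⊔ (u1ᶜ, ⊥) := by
      refine Prod.ext ?_ ?_
      · exact sup_compl_eq_top.symm
      · change ⊥ = ⊥ ⊔ ⊥
        simp
    rw [h1] at h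
    rcases hclan.prime _ _ h with h2 | h2
    · exact hb (hclan.upward _ _ h2 ⟨le_rfl, bot_le⟩)
    · exact hp.not_both u1 ⟨hu1, hclan.upward _ _ h2 ⟨le_rfl, bot_le⟩⟩
  apply hnt
  apply hclus
  rintro ⟨u, w⟩ hx
  by_cases hu : u = ⊥
  · refine Or.inr (Or.inr (Or.inl ?_))
    change σ ⊤ ⊓ w ≠ ⊥
    rw [map_top, top_inf_eq]
    rintro rfl
    rw [hu] at hx
    exact hclan.bot_notMem hx
  · refine Or.inl ?_
    change ⊤ ⊓ u ≠ ⊥
    rw [top_inf_eq]
    exact hu

end Con

/-! ### The Cantor space -/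

/-- the Cantor space -/
abbrev X : Type := ℕ → Bool

/-- the algebra of clopen sets -/
abbrev AX : Type := Clopens X

/-- the algebra of regular open sets -/
abbrev RX : Type := Heyting.Regular (Opens X)

theorem toOpens_compl (u : AX) : (u.toOpens)ᶜ = (uᶜ).toOpens := by
  apply IsCompl.compl_eq
  constructor
  · rw [disjoint_iff]
    ext x
    simp
  · rw [codisjoint_iff]
    ext x
    simp

theorem isRegular_clopen (u : AX) : Heyting.IsRegular u.toOpens := by
  change (u.toOpens)ᶜᶜ = u.toOpens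
  rw [toOpens_compl, toOpens_compl, compl_compl]

/-- the inclusion of the clopen sets in the regular open sets -/
def sg : BoundedLatticeHom AX RX where
  toFun := fun u => ⟨u.toOpens, isRegular_clopen u⟩
  map_sup' := by
    intro u v
    apply Heyting.Regular.coe_injective
    change (u ⊔ v).toOpens = (u.toOpens ⊔ v.toOpens)ᶜᶜ
    have h : u.toOpens ⊔ v.toOpens = (u ⊔ v).toOpens := by
      ext x
      simp
    rw [h, toOpens_compl, toOpens_compl, compl_compl]
  map_inf' := by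
    intro u v
    apply Heyting.Regular.coe_injective
    rfl
  map_top' := rfl
  map_bot' := rfl

theorem sg_coe (u : AX) : ((sg u : RX) : Opens X) = u.toOpens := rfl

theorem sg_inj (a : AX) (h : sg a = ⊥) : a = ⊥ := by
  have h1 := congrArg (fun z : RX => (z : Opens X)) h
  change a.toOpens = ⊥ at h1
  apply Clopens.ext
  exact congrArg (fun z : Opens X => (z : Set X)) h1

theorem sg_dense (r : RX) (h : r ≠ ⊥) : ∃ a : AX, a ≠ ⊥ ∧ sg a ≤ r := by
  have h1 : ((r : Opens X) : Set X).Nonempty := by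
    rw [Set.nonempty_iff_ne_empty]
    intro h2
    apply h
    apply Heyting.Regular.coe_injective
    exact Opens.ext h2
  obtain ⟨x, hx⟩ := h1
  obtain ⟨V, hV, hxV, hVr⟩ := compact_exists_isClopen_in_isOpen (r : Opens X).isOpen hx
  refine ⟨⟨V, hV⟩, ?_, ?_⟩
  · intro h2
    have h3 := congrArg (fun z : AX => (z : Set X)) h2
    change V = ∅ at h3
    rw [h3] at hxV
    exact hxV
  · rw [← Heyting.Regular.coe_le_coe]
    exact hVr

/-- ultrafilters of clopen sets have a point in common -/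
theorem ultra_point (p : Set AX) (hp : IsUltra p) : ∃ x : X, ∀ u : AX, u ∈ p ↔ x ∈ u := by
  classical
  have hne : (⋂ u : p, ((u : AX) : Set X)).Nonempty := by
    apply CompactSpace.iInter_nonempty
    · intro u
      exact (u : AX).isClosed
    · intro s
      have h1 : ∃ w ∈ p, (w : Set X) ⊆ ⋂ u ∈ s, ((u : AX) : Set X) := by
        induction s using Finset.induction_on with
        | empty => exact ⟨⊤, hp.top_mem, by simp⟩
        | insert a s _ ih =>
          obtain ⟨w, hw, hws⟩ := ih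
          refine ⟨(a : AX) ⊓ w, hp.inf a.2 hw, ?_⟩
          rw [Finset.set_biInter_insert]
          exact Set.inter_subset_inter_right _ hws
      obtain ⟨w, hw, hws⟩ := h1
      have h2 : (w : Set X).Nonempty := by
        rw [Set.nonempty_iff_ne_empty]
        intro h3
        apply hp.bot_notMem
        have : w = ⊥ := Clopens.ext h3
        rwa [this] at hw
      exact h2.mono hws
  obtain ⟨x, hx⟩ := hne
  rw [Set.mem_iInter] at hx
  refine ⟨x, fun u => ⟨fun hu => hx ⟨u, hu⟩, fun hu => ?_⟩⟩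
  rcases hp.mem_or u with h | h
  · exact h
  · exact absurd hu (hx ⟨uᶜ, h⟩)

/-- the points whose first difference from `x` is at `n` -/
def Df (x : X) (n : ℕ) : Set X := {y | y n ≠ x n ∧ ∀ m < n, y m = x m}

theorem isOpen_Df (x : X) (n : ℕ) : IsOpen (Df x n) := by
  have h : Df x n = {y | y n ≠ x n} ∩ ⋂ m ∈ Finset.range n, {y | y m = x m} := by
    ext y
    simp [Df]
  rw [h]
  refine IsOpen.inter ?_ (isOpen_biInter_finset fun m _ => ?_)
  · exact (isOpen_discrete {b : Bool | b ≠ x n}).preimage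
      (continuous_apply (A := fun _ : ℕ => Bool) n)
  · exact (isOpen_discrete {b : Bool | b = x m}).preimage
      (continuous_apply (A := fun _ : ℕ => Bool) m)

theorem mem_closure_Df (x : X) (f : ℕ → ℕ) (hf : StrictMono f) (S : Set X)
    (hS : ∀ k, Df x (f k) ⊆ S) : x ∈ closure S := by
  classical
  refine mem_closure_of_tendsto (f := fun k => Function.update x (f k) (!x (f k)))
    (b := Filter.atTop) ?_ (Filter.Eventually.of_forall fun k => hS k ?_)
  · rw [tendsto_pi_nhds]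
    intro i
    apply tendsto_const_nhds.congr'
    filter_upwards [Filter.eventually_gt_atTop i] with k hk
    have h1 : i < f k := lt_of_lt_of_le hk (hf.id_le k)
    rw [Function.update_of_ne h1.ne]
  · refine ⟨?_, fun m hm => ?_⟩
    · rw [Function.update_self]
      simp
    · rw [Function.update_of_ne hm.ne]

theorem ultra_split (p : Set AX) (hp : IsUltra p) :
    ∃ v : RX, (∀ a, v ≤ sg a → a ∈ p) ∧ ∀ a, vᶜ ≤ sg a → a ∈ p := by
  obtain ⟨x, hx⟩ := ultra_point p hp
  let W0 : Opens X := ⟨⋃ k : ℕ, Df x (2 * k), isOpen_iUnion fun k => isOpen_Df x _⟩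
  let W1 : Opens X := ⟨⋃ k : ℕ, Df x (2 * k + 1), isOpen_iUnion fun k => isOpen_Df x _⟩
  have hdisj : Disjoint W1 W0 := by
    rw [disjoint_iff]
    ext y
    simp only [Opens.coe_inf, Opens.coe_bot, Set.mem_inter_iff, Set.mem_empty_iff_false,
      iff_false, not_and]
    intro h1 h2
    obtain ⟨k, hk⟩ := Set.mem_iUnion.mp h1
    obtain ⟨l, hl⟩ := Set.mem_iUnion.mp h2
    rcases lt_trichotomy (2 * k + 1) (2 * l) with h | h | h
    · exact hk.1 (hl.2 _ h)
    · omega
    · exact hl.1 (hk.2 _ h)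
  have hcl0 : x ∈ closure (W0 : Set X) := mem_closure_Df x (fun k => 2 * k)
    (fun a b h => by simp only; omega) _ fun k => Set.subset_iUnion (fun k => Df x (2 * k)) k
  have hcl1 : x ∈ closure (W1 : Set X) := mem_closure_Df x (fun k => 2 * k + 1)
    (fun a b h => by simp only; omega) _ fun k => Set.subset_iUnion (fun k => Df x (2 * k + 1)) k
  have key : ∀ (W : Opens X) (a : AX), x ∈ closure (W : Set X) → W ≤ a.toOpens → a ∈ p := by
    intro W a hcl hW
    rw [hx]
    exact closure_minimal hW a.isClosed hcl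
  refine ⟨Heyting.Regular.toRegular W0, fun a ha => key W0 a hcl0 ?_,
    fun a ha => key W1 a hcl1 ?_⟩
  · rw [← Heyting.Regular.coe_le_coe, Heyting.Regular.coe_toRegular] at ha
    exact le_compl_compl.trans ha
  · rw [← Heyting.Regular.coe_le_coe, Heyting.Regular.coe_compl,
      Heyting.Regular.coe_toRegular, compl_compl_compl] at ha
    exact (le_compl_iff_disjoint_right.mpr hdisj).trans ha

theorem not_reg : ¬ Reg (con sg) := by
  intro h
  obtain ⟨Γ, hΓ, -⟩ := h (⊤, ⊤) (⊤, ⊤) (Or.inl (by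
    rw [inf_top_eq]
    intro h1
    have h2 := congrArg (fun z : AX => (z : Set X)) h1
    change Set.univ = ∅ at h2
    exact Set.empty_ne_univ h2.symm))
  exact no_coEnd ultra_split Γ hΓ

/-! ### A countable elementarily equivalent algebra -/

theorem countable_symbols : LCA.card ≤ Cardinal.aleph0 := by
  have h1 : Countable (Σ l, LCA.Functions l) := by
    refine Function.Injective.countable (f := fun x : Σ l, LCA.Functions l =>
      match x with
      | ⟨_, CAFun.sup⟩ => 0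
      | ⟨_, CAFun.inf⟩ => 1
      | ⟨_, CAFun.compl⟩ => 2
      | ⟨_, CAFun.bot⟩ => 3
      | ⟨_, CAFun.top⟩ => (4 : ℕ)) ?_
    rintro ⟨n, x⟩ ⟨m, y⟩ h
    cases x <;> cases y <;> first | rfl | simp at h
  have h2 : Countable (Σ l, LCA.Relations l) := by
    refine Function.Injective.countable (f := fun _ : Σ l, LCA.Relations l => (0 : ℕ)) ?_
    rintro ⟨n, x⟩ ⟨m, y⟩ _
    cases x
    cases y
    rfl
  have h3 : Countable LCA.Symbols := by
    unfold FirstOrder.Language.Symbols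
    infer_instance
  exact Cardinal.mk_le_aleph0_iff.mpr h3

theorem countable_AX : Countable AX := Clopens.countable_iff_secondCountable.mpr inferInstance

theorem infinite_AX : Infinite AX := by
  have hcl : ∀ n : ℕ, IsClopen {y : X | y n = true} := fun n =>
    (isClopen_discrete {b : Bool | b = true}).preimage (continuous_apply (A := fun _ : ℕ => Bool) n)
  refine Infinite.of_injective (fun n : ℕ => (⟨{y : X | y n = true}, hcl n⟩ : AX)) ?_
  intro n m h
  by_contra hne
  have h1 : {y : X | y n = true} = {y : X | y m = true} := congrArg (fun z : AX => (z : Set X)) h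
  have h2 : (fun k => decide (k = n) : X) ∈ {y : X | y n = true} := by simp
  rw [h1] at h2
  simp only [Set.mem_ofPred_eq, decide_eq_true_eq] at h2
  exact hne h2.symm

theorem exists_countable : ∃ (B : Type) (_ : BooleanAlgebra B) (C : B → B → Prop),
    IsContact C ∧ (∀ φ : LCA.Sentence, Holds C φ ↔ Holds (con sg) φ) ∧ Reg C := by
  classical
  let _str : LCA.Structure (AX × RX) := caStr (con sg)
  have := countable_AX
  have := infinite_AX
  have hinf : Infinite (AX × RX) := inferInstance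
  let s : Set (AX × RX) := Set.range fun q : AX × AX => (q.1, sg q.2)
  have hs : s.Countable := Set.countable_range _
  obtain ⟨S, hsS, hcard⟩ := exists_elementarySubstructure_card_eq LCA s Cardinal.aleph0 le_rfl
    (by
      rw [Cardinal.lift_le]
      exact Cardinal.mk_le_aleph0_iff.mpr hs.to_subtype)
    (by
      rw [Cardinal.lift_le]
      exact countable_symbols)
    (by
      rw [Cardinal.lift_le]
      exact Cardinal.aleph0_le_mk _)
  have hScount : Countable S := by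
    rw [← Cardinal.mk_le_aleph0_iff]
    rw [Cardinal.lift_inj] at hcard
    exact hcard.le
  have hmem : ∀ a b : AX, ((a, sg b) : AX × RX) ∈ S := fun a b => hsS ⟨(a, b), rfl⟩
  have hsup : ∀ x y : AX × RX, x ∈ S → y ∈ S → x ⊔ y ∈ S := by
    intro x y hx hy
    refine S.toSubstructure.fun_mem (CAFun.sup : LCA.Functions 2) ![x, y] ?_
    intro i
    fin_cases i
    · exact hx
    · exact hy
  have hinf : ∀ x y : AX × RX, x ∈ S → y ∈ S → x ⊓ y ∈ S := by
    intro x y hx hy
    refine S.toSubstructure.fun_mem (CAFun.inf : LCA.Functions 2) ![x, y] ?_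
    intro i
    fin_cases i
    · exact hx
    · exact hy
  have hcompl : ∀ x : AX × RX, x ∈ S → xᶜ ∈ S := by
    intro x hx
    refine S.toSubstructure.fun_mem (CAFun.compl : LCA.Functions 1) ![x] ?_
    intro i
    fin_cases i
    exact hx
  have hbt : ((⊥, ⊤) : AX × RX) ∈ S := by
    have := hmem ⊥ ⊤
    rwa [map_top] at this
  have hbb : ∀ a : AX, ((a, ⊥) : AX × RX) ∈ S := by
    intro a
    have := hmem a ⊥
    rwa [map_bot] at this
  let R0 : BooleanSubalgebra RX :=
    { carrier := {r | ((⊥, r) : AX × RX) ∈ S}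
      supClosed' := by
        intro r hr t ht
        have h1 := hsup _ _ hr ht
        have h2 : ((⊥, r) : AX × RX) ⊔ (⊥, t) = (⊥, r ⊔ t) := Prod.ext (sup_idem ⊥) rfl
        rw [h2] at h1
        exact h1
      infClosed' := by
        intro r hr t ht
        have h1 := hinf _ _ hr ht
        have h2 : ((⊥, r) : AX × RX) ⊓ (⊥, t) = (⊥, r ⊓ t) := Prod.ext (inf_idem ⊥) rfl
        rw [h2] at h1
        exact h1
      compl_mem' := by
        intro r hr
        have h1 := hinf _ _ (hcompl _ hr) hbt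
        have h2 : ((⊥, r) : AX × RX)ᶜ ⊓ (⊥, ⊤) = (⊥, rᶜ) :=
          Prod.ext (inf_bot_eq _) (inf_top_eq _)
        rw [h2] at h1
        exact h1
      bot_mem' := hbb ⊥ }
  have hσ : ∀ u : AX, sg u ∈ R0 := fun u => hmem ⊥ u
  let σ0 : BoundedLatticeHom AX R0 :=
    { toFun := fun u => ⟨sg u, hσ u⟩
      map_sup' := fun u v => Subtype.ext (map_sup sg u v)
      map_inf' := fun u v => Subtype.ext (map_inf sg u v)
      map_top' := Subtype.ext (map_top sg)
      map_bot' := Subtype.ext (map_bot sg) }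
  have hR0 : Countable R0 := by
    refine Function.Injective.countable (f := fun r : R0 => (⟨(⊥, (r : RX)), r.2⟩ : S)) ?_
    intro r t h
    have h1 := congrArg (fun z : S => (z : AX × RX).2) h
    exact Subtype.ext h1
  have hin : ∀ x : AX × R0, ((x.1, (x.2 : RX)) : AX × RX) ∈ S := by
    intro x
    have h1 := hsup _ _ (hbb x.1) x.2.2
    have h2 : ((x.1, ⊥) : AX × RX) ⊔ (⊥, (x.2 : RX)) = (x.1, (x.2 : RX)) :=
      Prod.ext (sup_bot_eq _) (bot_sup_eq _)
    rw [h2] at h1
    exact h1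
  have hout : ∀ x : S, (x : AX × RX).2 ∈ R0 := by
    intro x
    have h1 := hinf _ _ x.2 hbt
    have h2 : (x : AX × RX) ⊓ (⊥, ⊤) = (⊥, (x : AX × RX).2) :=
      Prod.ext (inf_bot_eq _) (inf_top_eq _)
    rw [h2] at h1
    exact h1
  have hinj0 : ∀ a, σ0 a = ⊥ → a = ⊥ := by
    intro a h
    exact sg_inj a (congrArg Subtype.val h)
  have hdense0 : ∀ r : R0, r ≠ ⊥ → ∃ a : AX, a ≠ ⊥ ∧ σ0 a ≤ r := by
    intro r hr
    obtain ⟨a, ha, h⟩ := sg_dense (r : RX) fun h => hr (Subtype.ext h)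
    exact ⟨a, ha, h⟩
  refine ⟨AX × R0, inferInstance, con σ0, isContact_con σ0, ?_,
    reg_of_countable hinj0 hdense0⟩
  intro φ
  let _str0 : LCA.Structure (AX × R0) := caStr (con σ0)
  let e : (AX × R0) ≃[LCA] S :=
    { toFun := fun x => ⟨(x.1, (x.2 : RX)), hin x⟩
      invFun := fun x => ((x : AX × RX).1, ⟨(x : AX × RX).2, hout x⟩)
      left_inv := fun x => rfl
      right_inv := fun x => rfl
      map_fun' := by
        intro n f x
        apply Subtype.ext
        cases f with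
        | sup => rfl
        | inf => rfl
        | compl => rfl
        | bot => rfl
        | top => rfl
      map_rel' := by
        intro n r x
        cases r with
        | C =>
          change con sg _ _ ↔ con σ0 (x 0) (x 1)
          unfold con
          have h1 : ∀ z : R0, z = ⊥ ↔ (z : RX) = ⊥ := fun z =>
            ⟨fun h => congrArg Subtype.val h, fun h => Subtype.ext h⟩
          simp only [ne_eq, h1]
          exact Iff.rfl }
  have h1 : (AX × R0) ⊨ φ ↔ S ⊨ φ := StrongHomClass.realize_sentence e φ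
  have h2 : S ⊨ φ ↔ (AX × RX) ⊨ φ := S.realize_sentence φ
  exact h1.trans h2

/-- (1) There are elementarily equivalent contact algebras `(B, C)`, `(B', C')` such that `(B, C)`
satisfies (Reg) and `(B', C')` does not.
(2) Hence no set of first-order sentences axiomatizes (Reg) among the contact algebras, let
alone a single sentence: the answer to Q1 is no. -/
theorem result :
    (∃ (B B' : Type) (_ : BooleanAlgebra B) (_ : BooleanAlgebra B') (C : B → B → Prop)
      (C' : B' → B' → Prop), IsContact C ∧ IsContact C' ∧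
      (∀ φ : LCA.Sentence, Holds C φ ↔ Holds C' φ) ∧ Reg C ∧ ¬ Reg C') ∧
    ¬ ∃ T : Set LCA.Sentence, ∀ (B : Type) [BooleanAlgebra B] (C : B → B → Prop),
      IsContact C → ((∀ φ ∈ T, Holds C φ) ↔ Reg C) := by
  obtain ⟨B, _, C, hC, heq, hreg⟩ := exists_countable
  refine ⟨⟨B, AX × RX, inferInstance, inferInstance, C, con sg, hC, isContact_con sg, heq, hreg,
    not_reg⟩, ?_⟩
  rintro ⟨T, hT⟩
  apply not_reg
  rw [← hT (AX × RX) (con sg) (isContact_con sg)]
  intro φ hφ
  rw [← heq]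
  exact (hT B C hC).mpr hreg φ hφ

end Pool.Agent.Results.MP_50aa38_lc.RegNotAxiomatizable
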